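import Pool.Agent.Lib.MP_6bc78b_nt.MS.QZ.Iface3
import Mathlib.MeasureTheory.Measure.LevyConvergence
import Mathlib.Probability.Distributions.Gaussian.Real

/-! Module LEV of project QG: from characteristic functions to tails. -/

set_option autoImplicit false

open Complex Filter Topology MeasureTheory

namespace Pool.Agent.Lib.MP_6bc78b_nt.MS.QZ.H17

open Pool.Agent.Lib.MP_6bc78b_nt.MS.QZ

/-- The total weight. -/
noncomputable def levW (s : ℕ → Finset ℝ) (w : ℕ → ℝ → ℝ) (n : ℕ) : ℝ := ∑ γ ∈ s n, w n γ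

/-- The normalized discrete measures. -/
noncomputable def levM (s : ℕ → Finset ℝ) (w f : ℕ → ℝ → ℝ) (n : ℕ) : Measure ℝ :=
  if 0 < levW s w n then
    ∑ γ ∈ s n, ENNReal.ofReal (w n γ / levW s w n) • Measure.dirac (f n γ)
  else Measure.dirac 0

lemma levM_prob (s : ℕ → Finset ℝ) (w f : ℕ → ℝ → ℝ) (hw : ∀ n γ, 0 ≤ w n γ) (n : ℕ) :
    IsProbabilityMeasure (levM s w f n) := by
  unfold levM
  split_ifs with h
  · constructor
    simp only [Measure.coe_finsetSum, Measure.coe_smul, Finset.sum_apply, Pi.smul_apply,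
      measure_univ, smul_eq_mul, mul_one]
    rw [← ENNReal.ofReal_sum_of_nonneg (fun γ _ => div_nonneg (hw n γ) h.le),
      ← Finset.sum_div]
    change ENNReal.ofReal (levW s w n / levW s w n) = 1
    rw [div_self h.ne', ENNReal.ofReal_one]
  · infer_instance

lemma levM_charFun (s : ℕ → Finset ℝ) (w f : ℕ → ℝ → ℝ) (hw : ∀ n γ, 0 ≤ w n γ) (n : ℕ)
    (h : 0 < levW s w n) (t : ℝ) :
    charFun (levM s w f n) t = ((levW s w n : ℝ) : ℂ)⁻¹ *
      ∑ γ ∈ s n, (w n γ : ℂ) * Complex.exp (((t * f n γ : ℝ) : ℂ) * I) := by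
  rw [charFun_apply_real]
  unfold levM
  rw [if_pos h, integral_finsetSum_measure]
  · rw [Finset.mul_sum]
    refine Finset.sum_congr rfl fun γ _ => ?_
    rw [integral_smul_measure, integral_dirac,
      ENNReal.toReal_ofReal (div_nonneg (hw n γ) h.le)]
    rw [Complex.real_smul]
    push_cast
    ring
  · intro γ _
    refine Integrable.smul_measure ?_ ENNReal.ofReal_ne_top
    refine integrable_dirac ?_
    simp

lemma levM_Ioi (s : ℕ → Finset ℝ) (w f : ℕ → ℝ → ℝ) (hw : ∀ n γ, 0 ≤ w n γ) (n : ℕ)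
    (h : 0 < levW s w n) (x : ℝ) :
    (levM s w f n (Set.Ioi x)).toReal * levW s w n =
      ∑ γ ∈ (s n).filter (fun γ => x < f n γ), w n γ := by
  unfold levM
  rw [if_pos h]
  simp only [Measure.coe_finsetSum, Measure.coe_smul, Finset.sum_apply, Pi.smul_apply,
    smul_eq_mul, Measure.dirac_apply' _ measurableSet_Ioi]
  rw [Finset.sum_filter, ENNReal.toReal_sum, Finset.sum_mul]
  · refine Finset.sum_congr rfl fun γ _ => ?_
    by_cases hx : x < f n γ
    · rw [if_pos hx, Set.indicator_of_mem (by exact hx)]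
      simp only [Pi.one_apply, mul_one]
      rw [ENNReal.toReal_ofReal (div_nonneg (hw n γ) h.le)]
      field_simp
    · rw [if_neg hx, Set.indicator_of_notMem (by exact hx)]
      simp
  · intro γ _
    refine ENNReal.mul_ne_top ENNReal.ofReal_ne_top ?_
    by_cases hx : f n γ ∈ Set.Ioi x
    · rw [Set.indicator_of_mem hx]; simp
    · rw [Set.indicator_of_notMem hx]; simp

lemma gaussian_Ioi (x : ℝ) :
    (ProbabilityTheory.gaussianReal 0 1 (Set.Ioi x)).toReal = Qf x := by
  rw [ProbabilityTheory.gaussianReal_apply_eq_integral _ one_ne_zero,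
    ENNReal.toReal_ofReal (setIntegral_nonneg measurableSet_Ioi
      (fun u _ => ProbabilityTheory.gaussianPDFReal_nonneg 0 1 u))]
  unfold Qf
  rw [← integral_const_mul]
  refine setIntegral_congr_fun measurableSet_Ioi fun u _ => ?_
  simp [ProbabilityTheory.gaussianPDFReal]
  left
  ring_nf

theorem lev : LevStatement := by
  intro s w f hw hcf x
  have hW : Tendsto (fun n => levW s w n) atTop (𝓝 1) := by
    have h0 := hcf 0
    have h1 : Tendsto (fun n => ((levW s w n : ℝ) : ℂ)) atTop (𝓝 ((1 : ℝ) : ℂ)) := by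
      have e0 : Complex.exp (((-((0 : ℝ) ^ 2 / 2) : ℝ) : ℂ)) = ((1 : ℝ) : ℂ) := by simp
      rw [e0] at h0
      refine h0.congr fun n => ?_
      simp [levW]
    have h2 := (Complex.continuous_re.tendsto _).comp h1
    exact h2
  have hpos : ∀ᶠ n in atTop, 0 < levW s w n := hW.eventually (lt_mem_nhds one_pos)
  have : ∀ n, IsProbabilityMeasure (levM s w f n) := levM_prob s w f hw
  let μ : ℕ → ProbabilityMeasure ℝ := fun n => ⟨levM s w f n, levM_prob s w f hw n⟩
  let μ₀ : ProbabilityMeasure ℝ := ⟨ProbabilityTheory.gaussianReal 0 1, inferInstance⟩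
  have hconv : Tendsto μ atTop (𝓝 μ₀) := by
    refine ProbabilityMeasure.tendsto_of_tendsto_charFun fun t => ?_
    change Tendsto (fun n => charFun (levM s w f n) t) atTop
      (𝓝 (charFun (ProbabilityTheory.gaussianReal 0 1) t))
    rw [ProbabilityTheory.charFun_gaussianReal]
    have hlim : Tendsto (fun n => ((levW s w n : ℝ) : ℂ)⁻¹ *
        ∑ γ ∈ s n, (w n γ : ℂ) * Complex.exp (((t * f n γ : ℝ) : ℂ) * I)) atTop
        (𝓝 ((((1 : ℝ) : ℂ))⁻¹ * Complex.exp (((-(t ^ 2 / 2) : ℝ) : ℂ)))) := by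
      refine Tendsto.mul ?_ (hcf t)
      refine Tendsto.inv₀ ?_ (by simp)
      exact (Complex.continuous_ofReal.tendsto _).comp hW
    have e : (((1 : ℝ) : ℂ))⁻¹ * Complex.exp (((-(t ^ 2 / 2) : ℝ) : ℂ)) =
        Complex.exp ((t : ℂ) * ((0 : ℝ) : ℂ) * I - (((1 : NNReal) : ℝ) : ℂ) * (t : ℂ) ^ 2 / 2) := by
      simp
    rw [e] at hlim
    refine hlim.congr' ?_
    filter_upwards [hpos] with n hn
    rw [levM_charFun s w f hw n hn t]
  have hm : Tendsto (fun n => (μ n : Measure ℝ) (Set.Ioi x)) atTop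
      (𝓝 ((μ₀ : Measure ℝ) (Set.Ioi x))) := by
    refine ProbabilityMeasure.tendsto_measure_of_null_frontier_of_tendsto' hconv ?_
    change (ProbabilityTheory.gaussianReal 0 1) (frontier (Set.Ioi x)) = 0
    rw [frontier_Ioi]
    have := ProbabilityTheory.nullSingletonClass_gaussianReal (μ := 0) (v := 1) one_ne_zero
    exact measure_singleton x
  have hm2 : Tendsto (fun n => (levM s w f n (Set.Ioi x)).toReal) atTop (𝓝 (Qf x)) := by
    have := (ENNReal.tendsto_toReal (measure_ne_top (μ₀ : Measure ℝ) (Set.Ioi x))).comp hm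
    rw [← gaussian_Ioi x]
    exact this
  have hfin := hm2.mul hW
  rw [mul_one] at hfin
  refine hfin.congr' ?_
  filter_upwards [hpos] with n hn
  rw [levM_Ioi s w f hw n hn x]

end Pool.Agent.Lib.MP_6bc78b_nt.MS.QZ.H17
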