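import Pool.Agent.Lib.MP_6bc78b_nt.MS.QZ.Iface3

/-! Module MOR of project QG: moments of the normalized real part. -/

set_option autoImplicit false

open Complex Filter Topology MeasureTheory

namespace Pool.Agent.Lib.MP_6bc78b_nt.MS.QZ.H17

open Pool.Agent.Lib.MP_6bc78b_nt.MS Pool.Agent.Lib.MP_6bc78b_nt.MS.P1
open Pool.Agent.Lib.MP_6bc78b_nt.MS.QZ

lemma re_pow_eq (z : ℂ) (k : ℕ) :
    z.re ^ k = (1 / 2 : ℝ) ^ k * ∑ p ∈ Finset.HasAntidiagonal.antidiagonal k,
      (k.choose p.1 : ℝ) * (z ^ p.1 * (starRingEnd ℂ) z ^ p.2).re := by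
  have h1 : ((z.re : ℝ) : ℂ) = (1 / 2 : ℂ) * (z + (starRingEnd ℂ) z) := by
    rw [Complex.add_conj]; push_cast; ring
  have h2 : ((z.re ^ k : ℝ) : ℂ) = (1 / 2 : ℂ) ^ k * ∑ p ∈ Finset.HasAntidiagonal.antidiagonal k,
      (k.choose p.1 : ℂ) * (z ^ p.1 * (starRingEnd ℂ) z ^ p.2) := by
    push_cast
    rw [h1, mul_pow, Commute.add_pow' (Commute.all _ _)]
    simp [nsmul_eq_mul]
  have h3 := congrArg Complex.re h2
  rw [Complex.ofReal_re] at h3
  rw [h3]
  have h4 : ((1 / 2 : ℂ) ^ k) = (((1 / 2 : ℝ) ^ k : ℝ) : ℂ) := by push_cast; ring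
  rw [h4, Complex.re_ofReal_mul, Complex.re_sum]
  congr 1
  refine Finset.sum_congr rfl fun p _ => ?_
  have h5 : ((k.choose p.1 : ℕ) : ℂ) = (((k.choose p.1 : ℕ) : ℝ) : ℂ) := by push_cast; rfl
  rw [h5, Complex.re_ofReal_mul]

lemma gm_eq (k : ℕ) :
    ∑ p ∈ Finset.HasAntidiagonal.antidiagonal k, ((-1 : ℝ) ^ k * (1 / 2 : ℝ) ^ k * Real.sqrt 2 ^ k *
      (k.choose p.1 : ℝ)) * (if p.1 = p.2 then (p.1.factorial : ℝ) else 0) = gm k := by
  unfold gm
  split_ifs with hk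
  · obtain ⟨m, rfl⟩ := hk
    rw [Finset.sum_eq_single (m, m)]
    · simp only [if_true]
      have e1 : (m + m) / 2 = m := by omega
      rw [e1]
      have e2 : Real.sqrt 2 ^ (m + m) = 2 ^ m := by
        rw [← two_mul, pow_mul, Real.sq_sqrt (by norm_num)]
      have e3 : (-1 : ℝ) ^ (m + m) = 1 := by
        rw [← two_mul, pow_mul]; simp
      have e4 : ((m + m).choose m : ℝ) * (m.factorial : ℝ) * (m.factorial : ℝ) =
          ((m + m).factorial : ℝ) := by
        exact_mod_cast Nat.add_choose_mul_factorial_mul_factorial m m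
      have e5 : (m.factorial : ℝ) ≠ 0 := by positivity
      rw [e2, e3, ← e4, pow_add]
      have e6 : (1 / 2 : ℝ) ^ m * 2 ^ m = 1 := by
        rw [← mul_pow]; norm_num
      have e7 : (1 / 2 : ℝ) ^ m = (2 ^ m)⁻¹ := by rw [one_div, inv_pow]
      rw [e7]
      field_simp
    · intro p hp hne
      rw [Finset.HasAntidiagonal.mem_antidiagonal] at hp
      rw [if_neg, mul_zero]
      intro h
      apply hne
      have : p.1 = m := by omega
      have : p.2 = m := by omega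
      ext <;> simp_all
    · intro h
      exact absurd (Finset.HasAntidiagonal.mem_antidiagonal.mpr
        (rfl : (m, m).1 + (m, m).2 = m + m)) h
  · refine Finset.sum_eq_zero fun p hp => ?_
    rw [Finset.HasAntidiagonal.mem_antidiagonal] at hp
    rw [if_neg, mul_zero]
    intro h
    apply hk
    exact ⟨p.2, by omega⟩

lemma ll_tendsto : Tendsto ll atTop atTop :=
  Real.tendsto_log_atTop.comp Real.tendsto_log_atTop

theorem mor (h1 : MogStatement) (h2 : ZfacStatement) : MorStatement := by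
  obtain ⟨-, -, -, -, -, -, hfin⟩ := h2
  intro k
  have hlim : Tendsto (fun T : ℝ => ∑ p ∈ Finset.HasAntidiagonal.antidiagonal k,
      ((-1 : ℝ) ^ k * (1 / 2 : ℝ) ^ k * Real.sqrt 2 ^ k * (k.choose p.1 : ℝ)) *
      ((∑ᶠ γ ∈ zset T, (mz γ : ℝ) * wt T γ *
        (P0 T γ ^ p.1 * (starRingEnd ℂ) (P0 T γ) ^ p.2).re) /
        (cG T * Real.log T * Real.sqrt (ll T) ^ (p.1 + p.2)))) atTop (𝓝 (gm k)) := by
    rw [← gm_eq k]
    refine tendsto_finsetSum _ fun p _ => ?_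
    exact (h1 p.1 p.2).const_mul _
  refine hlim.congr' ?_
  filter_upwards [ll_tendsto.eventually_gt_atTop 0] with T hT
  have hsq : Real.sqrt (ll T) = Real.sqrt 2 * Real.sqrt (ll T / 2) := by
    rw [← Real.sqrt_mul (by norm_num)]; congr 1; ring
  have hs0 : 0 < Real.sqrt (ll T / 2) := Real.sqrt_pos.mpr (by linarith)
  have hs2 : 0 < Real.sqrt 2 := Real.sqrt_pos.mpr (by norm_num)
  -- convert to finite sums
  have key : ∀ γ : ℝ, (mz γ : ℝ) * wt T γ * X0 T γ ^ k =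
      ∑ p ∈ Finset.HasAntidiagonal.antidiagonal k, ((-1 : ℝ) ^ k * (1 / 2 : ℝ) ^ k *
        (k.choose p.1 : ℝ) / Real.sqrt (ll T / 2) ^ k) *
        ((mz γ : ℝ) * wt T γ * (P0 T γ ^ p.1 * (starRingEnd ℂ) (P0 T γ) ^ p.2).re) := by
    intro γ
    unfold X0
    rw [div_pow, neg_pow, re_pow_eq, Finset.mul_sum, Finset.mul_sum, Finset.sum_div,
      Finset.mul_sum]
    refine Finset.sum_congr rfl fun p _ => ?_
    ring
  rw [finsum_mem_eq_finite_toFinset_sum _ (hfin T)]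
  rw [Finset.sum_congr rfl (fun γ _ => key γ), Finset.sum_comm, Finset.sum_div]
  refine Finset.sum_congr rfl fun p hp => ?_
  rw [Finset.HasAntidiagonal.mem_antidiagonal] at hp
  rw [← Finset.mul_sum, finsum_mem_eq_finite_toFinset_sum _ (hfin T), hp, hsq, mul_pow]
  have hA : Real.sqrt 2 ^ k ≠ 0 := pow_ne_zero _ hs2.ne'
  have hB : Real.sqrt (ll T / 2) ^ k ≠ 0 := pow_ne_zero _ hs0.ne'
  field_simp

end Pool.Agent.Lib.MP_6bc78b_nt.MS.QZ.H17
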