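import Pool.Agent.Lib.MP_6bc78b_nt.MS.QZ.Iface3

/-! Module LIQ of project QG: the distribution of the normalized prime sum over the zeros. -/

set_option autoImplicit false

open Complex Filter Topology MeasureTheory

namespace Pool.Agent.Lib.MP_6bc78b_nt.MS.QZ.H17

open Pool.Agent.Lib.MP_6bc78b_nt.MS Pool.Agent.Lib.MP_6bc78b_nt.MS.P1
open Pool.Agent.Lib.MP_6bc78b_nt.MS.QZ

lemma cG_pos {T : ℝ} (h : 1 < T) : 0 < cG T := by
  unfold cG DD
  have h1 : 0 < Real.log T := Real.log_pos h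
  positivity

theorem liq (h1 : MorStatement) (h2 : ChfStatement) (h3 : LevStatement)
    (h4 : ZfacStatement) : LiqStatement := by
  obtain ⟨-, -, -, -, -, -, hfin⟩ := h4
  intro x ε hε
  by_contra hcon
  rw [Filter.not_eventually] at hcon
  obtain ⟨u, hu, hP⟩ := Filter.exists_seq_forall_of_frequently hcon
  let s : ℕ → Finset ℝ := fun n => (hfin (u n)).toFinset
  let w : ℕ → ℝ → ℝ := fun n γ => (mz γ : ℝ) * wt (u n) γ / |cG (u n) * Real.log (u n)|
  let f : ℕ → ℝ → ℝ := fun n γ => X0 (u n) γ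
  have hw : ∀ n γ, 0 ≤ w n γ := fun n γ =>
    div_nonneg (mul_nonneg (Nat.cast_nonneg _) (Real.exp_pos _).le) (abs_nonneg _)
  have hpos : ∀ᶠ n in atTop, 0 < cG (u n) * Real.log (u n) := by
    filter_upwards [hu.eventually_gt_atTop 1] with n hn
    exact mul_pos (cG_pos hn) (Real.log_pos hn)
  have hmom : ∀ k : ℕ, Tendsto (fun n => ∑ γ ∈ s n, w n γ * f n γ ^ k) atTop (𝓝 (gm k)) := by
    intro k
    refine ((h1 k).comp hu).congr' ?_
    filter_upwards [hpos] with n hn
    simp only [Function.comp_apply]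
    rw [finsum_mem_eq_finite_toFinset_sum _ (hfin (u n)), Finset.sum_div]
    refine Finset.sum_congr rfl fun γ _ => ?_
    simp only [w, f, abs_of_pos hn]
    ring
  have hlim := h3 s w f hw (h2 s w f hw hmom) x
  have hlt : ∀ᶠ n in atTop, ∑ γ ∈ (s n).filter (fun γ => x < f n γ), w n γ < Qf x + ε :=
    hlim.eventually (gt_mem_nhds (by linarith))
  obtain ⟨n, hn1, hn2⟩ := (hpos.and hlt).exists
  apply hP n
  have hset : {γ | γ ∈ zset (u n) ∧ x < X0 (u n) γ} =
      (((s n).filter (fun γ => x < f n γ) : Finset ℝ) : Set ℝ) := by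
    ext γ
    simp [s, f]
  rw [hset, finsum_mem_coe_finset]
  have e : ∑ γ ∈ (s n).filter (fun γ => x < f n γ), w n γ =
      (∑ γ ∈ (s n).filter (fun γ => x < f n γ), (mz γ : ℝ) * wt (u n) γ) /
        (cG (u n) * Real.log (u n)) := by
    rw [Finset.sum_div]
    refine Finset.sum_congr rfl fun γ _ => ?_
    simp only [w, abs_of_pos hn1]
  rw [e, div_lt_iff₀ hn1] at hn2
  exact hn2.le

end Pool.Agent.Lib.MP_6bc78b_nt.MS.QZ.H17
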