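import Pool.Agent.Lib.MP_6bc78b_nt.MS.QZ.Iface

/-! Project MS, Part QZ (helper17): EXP, the exponent of the Euler product under RH. -/

set_option autoImplicit false

open Complex Filter Topology MeasureTheory ArithmeticFunction

namespace Pool.Agent.Lib.MP_6bc78b_nt.MS.QZ.H17

open Pool.Agent.Lib.MP_6bc78b_nt.MS Pool.Agent.Lib.MP_6bc78b_nt.MS.P1
open Pool.Agent.Lib.MP_6bc78b_nt.MS.QZ

theorem norm_sub_sq_le (α : ℝ) (w : ℂ) (hw : ‖w‖ ≤ 1) :
    ‖(α : ℂ) - w‖ ^ 2 ≤ α ^ 2 + 1 - 2 * α * w.re := by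
  have h1 : ‖(α : ℂ) - w‖ ^ 2 = (α - w.re) ^ 2 + w.im ^ 2 := by
    rw [← Complex.normSq_eq_norm_sq, Complex.normSq_apply]
    simp
    ring
  have h2 : w.re ^ 2 + w.im ^ 2 ≤ 1 := by
    have h3 : ‖w‖ ^ 2 = w.re ^ 2 + w.im ^ 2 := by
      rw [← Complex.normSq_eq_norm_sq, Complex.normSq_apply]
      ring
    rw [← h3]
    have := norm_nonneg w
    nlinarith
  rw [h1]
  nlinarith

theorem prime_term (p : ℕ) (hp : p.Prime) (α : ℝ) (z : ℂ) (hz : 0 ≤ z.re) :
    ‖(α : ℂ) - (p : ℂ) ^ (-z)‖ ^ 2 / (p : ℝ) ≤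
      (1 + α ^ 2) * (p : ℝ)⁻¹ - 2 * α * ((p : ℂ) ^ (-(1 + z))).re := by
  have hp0 : (0 : ℝ) < p := by exact_mod_cast hp.pos
  have hp1 : (1 : ℝ) ≤ p := by exact_mod_cast hp.one_lt.le
  have hw : ‖(p : ℂ) ^ (-z)‖ ≤ 1 := by
    rw [Complex.norm_natCast_cpow_of_pos hp.pos]
    apply Real.rpow_le_one_of_one_le_of_nonpos hp1
    simp [hz]
  have h1 := norm_sub_sq_le α _ hw
  have h2 : (p : ℂ) ^ (-(1 + z)) = (p : ℂ) ^ (-z) * ((p : ℝ)⁻¹ : ℝ) := by
    have hp' : (p : ℂ) ≠ 0 := by exact_mod_cast hp.ne_zero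
    rw [neg_add, add_comm, Complex.cpow_add _ _ hp', Complex.cpow_neg_one]
    push_cast
    ring
  rw [h2, Complex.re_mul_ofReal, div_eq_mul_inv]
  have h3 : (0 : ℝ) < (p : ℝ)⁻¹ := inv_pos.2 hp0
  calc ‖(α : ℂ) - (p : ℂ) ^ (-z)‖ ^ 2 * (p : ℝ)⁻¹
      ≤ (α ^ 2 + 1 - 2 * α * ((p : ℂ) ^ (-z)).re) * (p : ℝ)⁻¹ :=
        mul_le_mul_of_nonneg_right h1 h3.le
    _ = _ := by ring

theorem mem_prs {a b : ℝ} {p : ℕ} (h : p ∈ prs a b) : p.Prime := by
  unfold prs at h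
  exact (Finset.mem_filter.1 h).2.1

theorem sum_le (y α : ℝ) (z : ℂ) (hz : 0 ≤ z.re) :
    ∑ p ∈ prs 1 y, ‖(α : ℂ) - (p : ℂ) ^ (-z)‖ ^ 2 / (p : ℝ) ≤
      (1 + α ^ 2) * rs (prs 1 y) - 2 * α * (∑ p ∈ prs 1 y, (p : ℂ) ^ (-(1 + z))).re := by
  calc _ ≤ ∑ p ∈ prs 1 y, ((1 + α ^ 2) * (p : ℝ)⁻¹ - 2 * α * ((p : ℂ) ^ (-(1 + z))).re) :=
        Finset.sum_le_sum fun p hp => prime_term p (mem_prs hp) α z hz
    _ = _ := by
        rw [Finset.sum_sub_distrib, ← Finset.mul_sum, ← Finset.mul_sum, Complex.re_sum]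
        rfl

/-- EXP -/
theorem exp (hRH : RiemannHypothesis) (hL : LzpStatement) (hM : Mr2Statement)
    (hZ : P3.ZbStatement) : ExpStatement := by
  obtain ⟨C1, hC1, h1⟩ := hL
  obtain ⟨C2, hC2, h2, -, -⟩ := hM
  obtain ⟨C3, hC3, h3⟩ := hZ hRH (1 / 4) (by norm_num)
  set C4 : ℝ := max C3 1 with hC4
  have hC41 : 1 ≤ C4 := le_max_right _ _
  have hC4l : 0 ≤ Real.log C4 := Real.log_nonneg hC41
  have hl2 : 0 ≤ Real.log 2 := Real.log_nonneg (by norm_num)
  refine ⟨Real.exp (2 * C2 + 2 * C1 + 2 * Real.log C4 + 2 * Real.log 2), Real.exp_pos _, ?_⟩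
  intro y α z hy hα0 hα1 hz0 hz1
  set Y : ℝ := Real.log y with hY
  have hY1 : 1 ≤ Y := by
    rw [hY, Real.le_log_iff_exp_le (by linarith)]
    have := Real.exp_one_lt_d9
    linarith
  have hY0 : 0 < Y := by linarith
  set m : ℝ := min |z.im| 1 with hm
  have hm0 : 0 ≤ m := le_min (abs_nonneg _) zero_le_one
  have hmY : 1 ≤ 1 + m * Y := by
    have := mul_nonneg hm0 hY0.le
    linarith
  have ht1 : 1 ≤ 1 + |z.im| := by
    have := abs_nonneg z.im
    linarith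
  set s : ℂ := 1 + ((1 / Y : ℝ) : ℂ) + z with hs
  have hsre : s.re = 1 + 1 / Y + z.re := by simp [hs]
  have hsim : s.im = z.im := by simp [hs]
  have hY' : 0 < 1 / Y := by positivity
  have hY'1 : 1 / Y ≤ 1 := by
    rw [div_le_one hY0]; exact hY1
  have e1 := h1 y z (by linarith) hz0 hz1
  have e2 := h2 y (by linarith)
  have hs1 : s ≠ 1 := by
    intro h
    have : s.re = 1 := by rw [h]; simp
    rw [hsre] at this
    linarith
  have e3 := (h3 s (by rw [hsre]; linarith) (by rw [hsre]; linarith) hs1).2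
  rw [hsim] at e3
  -- the minimum
  have e4 : min ‖s - 1‖ 1 ≤ 2 / Y * (1 + m * Y) := by
    have h5 : 2 / Y * (1 + m * Y) = 2 / Y + 2 * m := by
      field_simp
    rw [h5]
    have h6 : 0 < 2 / Y := by positivity
    by_cases ht : |z.im| ≤ 1
    · have hm' : m = |z.im| := min_eq_left ht
      rw [hm']
      refine (min_le_left _ _).trans ?_
      have h7 : s - 1 = ((1 / Y + z.re : ℝ) : ℂ) + (z.im : ℂ) * I := by
        apply Complex.ext
        · simp [hs]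
          ring
        · simp [hs]
      rw [h7]
      refine (norm_add_le _ _).trans ?_
      rw [Complex.norm_real, norm_mul, Complex.norm_real, Complex.norm_I, mul_one,
        Real.norm_eq_abs, Real.norm_eq_abs, abs_of_nonneg (by linarith)]
      have h8 : 2 / Y = 1 / Y + 1 / Y := by ring
      rw [h8]
      have := abs_nonneg z.im
      linarith
    · have hm' : m = 1 := min_eq_right (by linarith)
      rw [hm']
      exact (min_le_right _ _).trans (by linarith)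
  -- zeta from below
  have hζ : 0 < ‖riemannZeta s‖ := by
    rcases (norm_nonneg (riemannZeta s)).eq_or_lt with h | h
    · rw [← h, mul_zero] at e3
      linarith
    · exact h
  have hτ : 0 < (1 + |z.im|) ^ (1 / 4 : ℝ) := Real.rpow_pos_of_pos (by linarith) _
  have hB : 0 < 2 / Y * (1 + m * Y) := by positivity
  have e5 : 1 ≤ C4 * (1 + |z.im|) ^ (1 / 4 : ℝ) * (2 / Y * (1 + m * Y)) * ‖riemannZeta s‖ := by
    refine e3.trans ?_
    apply mul_le_mul_of_nonneg_right _ hζ.le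
    apply mul_le_mul _ e4 (le_min (norm_nonneg _) zero_le_one) (by positivity)
    exact mul_le_mul_of_nonneg_right (le_max_left _ _) hτ.le
  have e6 : 0 ≤ Real.log C4 + 1 / 4 * Real.log (1 + |z.im|) +
      (Real.log 2 - Real.log Y + Real.log (1 + m * Y)) + Real.log ‖riemannZeta s‖ := by
    have h7 := Real.log_nonneg e5
    rw [Real.log_mul (by positivity) hζ.ne', Real.log_mul (by positivity) hB.ne',
      Real.log_mul (by positivity) hτ.ne', Real.log_rpow (by linarith),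
      Real.log_mul (by positivity) (by positivity), Real.log_div (by norm_num) hY0.ne'] at h7
    exact h7
  -- the exponent
  have e7 := sum_le y α z hz0
  have e8 : Real.log ‖riemannZeta s‖ - C1 ≤ (∑ p ∈ prs 1 y, (p : ℂ) ^ (-(1 + z))).re := by
    have := (abs_le.1 e1).1
    linarith
  have e9 : rs (prs 1 y) ≤ Real.log Y + C2 := by
    have := (abs_le.1 e2).2
    linarith
  have hlY : 0 ≤ Real.log Y := Real.log_nonneg hY1
  have hlt : 0 ≤ Real.log (1 + |z.im|) := Real.log_nonneg ht1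
  have hlm : 0 ≤ Real.log (1 + m * Y) := Real.log_nonneg hmY
  have key : ∑ p ∈ prs 1 y, ‖(α : ℂ) - (p : ℂ) ^ (-z)‖ ^ 2 / (p : ℝ) ≤
      (2 * C2 + 2 * C1 + 2 * Real.log C4 + 2 * Real.log 2) + (1 - α) ^ 2 * Real.log Y +
        2 * (α * Real.log (1 + m * Y) + 1 / 4 * Real.log (1 + |z.im|)) := by
    have a1 : (1 + α ^ 2) * rs (prs 1 y) ≤ (1 + α ^ 2) * (Real.log Y + C2) :=
      mul_le_mul_of_nonneg_left e9 (by positivity)
    have a2 : 2 * α * (Real.log ‖riemannZeta s‖ - C1) ≤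
        2 * α * (∑ p ∈ prs 1 y, (p : ℂ) ^ (-(1 + z))).re :=
      mul_le_mul_of_nonneg_left e8 (by linarith)
    have a3 := mul_nonneg (by linarith : 0 ≤ 2 * α) e6
    have a4 : α ^ 2 * C2 ≤ 1 * C2 := mul_le_mul_of_nonneg_right (by nlinarith) hC2.le
    have a5 : α * C1 ≤ 1 * C1 := mul_le_mul_of_nonneg_right hα1 hC1.le
    have a6 : α * Real.log C4 ≤ 1 * Real.log C4 := mul_le_mul_of_nonneg_right hα1 hC4l
    have a7 : α * Real.log 2 ≤ 1 * Real.log 2 := mul_le_mul_of_nonneg_right hα1 hl2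
    have a8 : α * Real.log (1 + |z.im|) ≤ 1 * Real.log (1 + |z.im|) :=
      mul_le_mul_of_nonneg_right hα1 hlt
    linarith
  refine (Real.exp_le_exp.2 key).trans (le_of_eq ?_)
  have f1 : Y ^ ((1 - α) ^ 2) = Real.exp ((1 - α) ^ 2 * Real.log Y) := by
    rw [Real.rpow_def_of_pos hY0, mul_comm]
  have f2 : ((1 + m * Y) ^ α) ^ 2 = Real.exp (2 * (α * Real.log (1 + m * Y))) := by
    rw [Real.rpow_def_of_pos (by linarith : 0 < 1 + m * Y), ← Real.exp_nat_mul]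
    congr 1
    push_cast
    ring
  have f3 : ((1 + |z.im|) ^ (1 / 4 : ℝ)) ^ 2 = Real.exp (2 * (1 / 4 * Real.log (1 + |z.im|))) := by
    rw [Real.rpow_def_of_pos (by linarith : 0 < 1 + |z.im|), ← Real.exp_nat_mul]
    congr 1
    push_cast
    ring
  unfold hh
  rw [← hm, mul_pow, f1, f2, f3, ← Real.exp_add, ← Real.exp_add, ← Real.exp_add]
  congr 1
  ring

end Pool.Agent.Lib.MP_6bc78b_nt.MS.QZ.H17
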