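import Pool.Agent.Lib.MP_6bc78b_nt.MS.QZ.H17.Loc

/-! Project MS, Part QZ (helper17): FUL, the norm of the full exponential. -/

set_option autoImplicit false

open Complex Filter Topology MeasureTheory ArithmeticFunction

namespace Pool.Agent.Lib.MP_6bc78b_nt.MS.QZ.H17

open Pool.Agent.Lib.MP_6bc78b_nt.MS Pool.Agent.Lib.MP_6bc78b_nt.MS.P1
open Pool.Agent.Lib.MP_6bc78b_nt.MS.QZ

theorem nn_one : NN (1 : ArithmeticFunction ℂ) = 1 := by
  unfold NN
  rw [tsum_eq_single 1]
  · simp
  · intro n hn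
    rw [ArithmeticFunction.one_apply, if_neg hn]
    simp

theorem pf_empty {n : ℕ} (hn : n ≠ 0) (h : n.primeFactors ⊆ ∅) : n = 1 := by
  rcases Nat.primeFactors_eq_empty.1 (Finset.subset_empty.1 h) with h | h
  · exact absurd h hn
  · exact h

theorem muz_empty (z : ℂ) : muz ∅ z = 1 := by
  ext n
  rw [ArithmeticFunction.one_apply]
  rcases Nat.eq_zero_or_pos n with h | h
  · subst h
    simp
  · by_cases h1 : n = 1
    · subst h1
      rw [if_pos rfl]
      have : muz ∅ z 1 = ((moebius 1 : ℤ) : ℂ) * ((1 : ℕ) : ℂ) ^ (-z) := if_pos (by simp)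
      rw [this]
      simp
    · rw [if_neg h1]
      exact if_neg fun h2 => h1 (pf_empty h.ne' h2)

theorem ae_empty (α : ℝ) : ae α ∅ = 1 := by
  ext n
  rw [ArithmeticFunction.one_apply]
  by_cases h1 : n = 1
  · subst h1
    rw [if_pos rfl]
    have : ae α ∅ 1 = α ^ (cardFactors 1) * nu 1 := if_pos ⟨one_ne_zero, by simp⟩
    rw [this]
    simp [nu]
  · rw [if_neg h1]
    exact if_neg fun h2 => h1 (pf_empty h2.1 h2.2)

/-- FUL -/
theorem ful (hL : LocStatement) (hC : CprStatement) (hM : MulStatement) : FulStatement := by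
  obtain ⟨C, hC0, hL⟩ := hL
  refine ⟨C, hC0, ?_⟩
  intro S
  induction S using Finset.induction_on with
  | empty =>
    intro α z _ _ _ _
    rw [muz_empty, ae_empty, toC_one, one_mul, nn_one]
    simp [rq]
  | insert p S hp ih =>
    intro α z hS h0 h1 hz
    have hpp : p.Prime := hS p (Finset.mem_insert_self _ _)
    have hS' : IsPr S := fun q hq => hS q (Finset.mem_insert_of_mem hq)
    have hpS : IsPr {p} := fun q hq => (Finset.mem_singleton.1 hq) ▸ hpp
    have hd : Disjoint ({p} : Finset ℕ) S := Finset.disjoint_singleton_left.2 hp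
    have e1 := hM {p} S hpS hS' hd
    have e2 : insert p S = {p} ∪ S := by
      rw [Finset.insert_eq]
    have e3 : muz (insert p S) z * toC (ae α (insert p S)) =
        (muz {p} z * toC (ae α {p})) * (muz S z * toC (ae α S)) := by
      rw [e2, e1.1 z, e1.2 α, toC_mul]
      ring
    rw [e3]
    refine (hC {p} S _ _ hd (supp_muz_ae _ _ _) (supp_muz_ae _ _ _)).trans ?_
    refine (mul_le_mul' (hL p α z hpp h0 h1 hz) (ih α z hS' h0 h1 hz)).trans ?_
    rw [← ENNReal.ofReal_mul (Real.exp_pos _).le, ← Real.exp_add]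
    apply ENNReal.ofReal_le_ofReal
    apply Real.exp_le_exp.2
    unfold rq
    rw [Finset.sum_insert hp, Finset.sum_insert hp]
    apply le_of_eq
    rw [div_eq_mul_inv C]
    ring

end Pool.Agent.Lib.MP_6bc78b_nt.MS.QZ.H17
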