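import Pool.Agent.Lib.MP_6bc78b_nt.MS.QZ.Iface

/-! Project MS, Part QZ (helper17): LOC, the norm of one local factor. -/

set_option autoImplicit false

open Complex Filter Topology MeasureTheory ArithmeticFunction

namespace Pool.Agent.Lib.MP_6bc78b_nt.MS.QZ.H17

open Pool.Agent.Lib.MP_6bc78b_nt.MS Pool.Agent.Lib.MP_6bc78b_nt.MS.P1
open Pool.Agent.Lib.MP_6bc78b_nt.MS.QZ

/-- supports -/
theorem supp_muz_ae (S : Finset ℕ) (α : ℝ) (z : ℂ) (n : ℕ)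
    (h : (muz S z * toC (ae α S)) n ≠ 0) : n.primeFactors ⊆ S := by
  rw [ArithmeticFunction.mul_apply] at h
  obtain ⟨x, hx, hne⟩ := Finset.exists_ne_zero_of_sum_ne_zero h
  have h1 := left_ne_zero_of_mul hne
  have h2 := right_ne_zero_of_mul hne
  obtain ⟨hxn, hn⟩ := Nat.mem_divisorsAntidiagonal.1 hx
  have h3 : x.1.primeFactors ⊆ S := by
    by_contra hc
    exact h1 (if_neg hc)
  have h4 : x.2.primeFactors ⊆ S := by
    by_contra hc
    apply h2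
    rw [toC_apply]
    have : ae α S x.2 = 0 := if_neg fun h => hc h.2
    rw [this]
    simp
  rw [← hxn] at hn ⊢
  rw [Nat.primeFactors_mul (left_ne_zero_of_mul hn) (right_ne_zero_of_mul hn)]
  exact Finset.union_subset h3 h4

theorem eq_pow {p n : ℕ} (hn : n ≠ 0) (h : n.primeFactors ⊆ {p}) : ∃ a, n = p ^ a := by
  refine ⟨_, Nat.eq_prime_pow_of_unique_prime_dvd hn fun {d} hd hdn => ?_⟩
  exact Finset.mem_singleton.1 (h (Nat.mem_primeFactors.2 ⟨hd, hdn, hn⟩))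

theorem nu_pow {p : ℕ} (hp : p.Prime) (a : ℕ) : nu (p ^ a) = 1 / (a.factorial : ℝ) := by
  unfold nu
  rcases Nat.eq_zero_or_pos a with h | h
  · subst h
    simp
  · rw [Nat.primeFactors_pow _ h.ne', hp.primeFactors, Finset.prod_singleton,
      hp.factorization_pow, Finsupp.single_eq_same]

theorem pf_pow {p : ℕ} (hp : p.Prime) (a : ℕ) : (p ^ a).primeFactors ⊆ {p} := by
  intro q hq
  rw [Finset.mem_singleton]
  obtain ⟨h1, h2, -⟩ := Nat.mem_primeFactors.1 hq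
  exact (Nat.prime_dvd_prime_iff_eq h1 hp).1 (h1.dvd_of_dvd_pow h2)

theorem ae_pow {p : ℕ} (hp : p.Prime) (α : ℝ) (a : ℕ) :
    ae α {p} (p ^ a) = α ^ a / (a.factorial : ℝ) := by
  have : ae α {p} (p ^ a) = α ^ (cardFactors (p ^ a)) * nu (p ^ a) :=
    if_pos ⟨pow_ne_zero _ hp.ne_zero, pf_pow hp a⟩
  rw [this, cardFactors_apply_prime_pow hp, nu_pow hp]
  ring

theorem muz_pow {p : ℕ} (hp : p.Prime) (z : ℂ) (a : ℕ) :
    muz {p} z (p ^ a) = ((moebius (p ^ a) : ℤ) : ℂ) * ((p ^ a : ℕ) : ℂ) ^ (-z) :=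
  if_pos (pf_pow hp a)

theorem muz_one {p : ℕ} (hp : p.Prime) (z : ℂ) : muz {p} z 1 = 1 := by
  have := muz_pow hp z 0
  rw [pow_zero] at this
  rw [this]
  simp

theorem muz_p {p : ℕ} (hp : p.Prime) (z : ℂ) : muz {p} z p = -(p : ℂ) ^ (-z) := by
  have := muz_pow hp z 1
  rw [pow_one] at this
  rw [this, moebius_apply_prime hp]
  simp

theorem muz_ge {p : ℕ} (hp : p.Prime) (z : ℂ) (a : ℕ) : muz {p} z (p ^ (a + 2)) = 0 := by
  rw [muz_pow hp, moebius_apply_prime_pow hp (by omega), if_neg (by omega)]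
  simp

/-- the values -/
theorem val_zero {p : ℕ} (hp : p.Prime) (α : ℝ) (z : ℂ) :
    (muz {p} z * toC (ae α {p})) (p ^ 0) = 1 := by
  have h1 := ae_pow hp α 0
  rw [pow_zero] at h1
  rw [pow_zero, ArithmeticFunction.mul_apply, Nat.divisorsAntidiagonal_one,
    Finset.sum_singleton, muz_one hp, toC_apply, h1]
  simp

theorem val_succ {p : ℕ} (hp : p.Prime) (α : ℝ) (z : ℂ) (a : ℕ) :
    (muz {p} z * toC (ae α {p})) (p ^ (a + 1)) =
      ((α ^ (a + 1) / ((a + 1).factorial : ℝ) : ℝ) : ℂ) -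
        (p : ℂ) ^ (-z) * ((α ^ a / (a.factorial : ℝ) : ℝ) : ℂ) := by
  rw [ArithmeticFunction.mul_apply,
    Nat.sum_divisorsAntidiagonal (f := fun x y => muz {p} z x * toC (ae α {p}) y),
    Nat.sum_divisors_prime_pow hp, Finset.sum_range_succ', Finset.sum_range_succ']
  have h0 : ∑ k ∈ Finset.range a, muz {p} z (p ^ (k + 1 + 1)) *
      toC (ae α {p}) (p ^ (a + 1) / p ^ (k + 1 + 1)) = 0 :=
    Finset.sum_eq_zero fun k _ => by rw [muz_ge hp, zero_mul]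
  have hq : p ^ (a + 1) / p ^ (0 + 1) = p ^ a := by
    rw [zero_add, pow_one, pow_succ]
    exact Nat.mul_div_cancel _ hp.pos
  rw [h0, pow_zero, Nat.div_one, hq, toC_apply, toC_apply, ae_pow hp, ae_pow hp, muz_one hp,
    zero_add, zero_add, pow_one, muz_p hp]
  ring

theorem norm_pz_le {p : ℕ} (hp : p.Prime) {z : ℂ} (hz : 0 ≤ z.re) : ‖(p : ℂ) ^ (-z)‖ ≤ 1 := by
  rw [Complex.norm_natCast_cpow_of_pos hp.pos]
  apply Real.rpow_le_one_of_one_le_of_nonpos (by exact_mod_cast hp.one_lt.le)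
  simp [hz]

theorem two_pow_le_fact (a : ℕ) : (2 : ℝ) ^ a ≤ ((a + 1).factorial : ℝ) := by
  induction a with
  | zero => simp
  | succ a ih =>
    rw [pow_succ, Nat.factorial_succ]
    push_cast
    have h1 : (0 : ℝ) ≤ a := Nat.cast_nonneg a
    have h2 : (0 : ℝ) ≤ ((a + 1).factorial : ℝ) := Nat.cast_nonneg _
    nlinarith

theorem val_ge {p : ℕ} (hp : p.Prime) {α : ℝ} (h0 : 0 ≤ α) (h1 : α ≤ 1) {z : ℂ}
    (hz : 0 ≤ z.re) (a : ℕ) : ‖(muz {p} z * toC (ae α {p})) (p ^ (a + 2))‖ ≤ 3 / 2 := by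
  rw [show a + 2 = (a + 1) + 1 from rfl, val_succ hp]
  refine (norm_sub_le _ _).trans ?_
  rw [norm_mul, Complex.norm_real, Complex.norm_real, Real.norm_eq_abs, Real.norm_eq_abs,
    abs_of_nonneg (by positivity), abs_of_nonneg (by positivity)]
  have e1 : α ^ (a + 1 + 1) / ((a + 1 + 1).factorial : ℝ) ≤ 1 / 2 := by
    rw [div_le_div_iff₀ (by positivity) (by norm_num)]
    have e2 : α ^ (a + 1 + 1) ≤ 1 := pow_le_one₀ h0 h1
    have e3 := two_pow_le_fact (a + 1)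
    have e4 : (2 : ℝ) ≤ 2 ^ (a + 1) := by
      rw [pow_succ]
      have : (1 : ℝ) ≤ 2 ^ a := one_le_pow₀ (by norm_num)
      linarith
    linarith
  have e5 : α ^ (a + 1) / ((a + 1).factorial : ℝ) ≤ 1 := by
    rw [div_le_one (by positivity)]
    have e2 : α ^ (a + 1) ≤ 1 := pow_le_one₀ h0 h1
    have e3 : (1 : ℝ) ≤ ((a + 1).factorial : ℝ) := by
      exact_mod_cast Nat.one_le_iff_ne_zero.2 (Nat.factorial_ne_zero _)
    linarith
  have e6 : ‖(p : ℂ) ^ (-z)‖ * (α ^ (a + 1) / ((a + 1).factorial : ℝ)) ≤ 1 * 1 :=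
    mul_le_mul (norm_pz_le hp hz) e5 (by positivity) (by norm_num)
  linarith

/-- LOC -/
theorem loc : LocStatement := by
  refine ⟨9 / 2, by norm_num, ?_⟩
  intro p α z hp h0 h1 hz
  have hp0 : (0 : ℝ) < p := by exact_mod_cast hp.pos
  have hp2 : (2 : ℝ) ≤ p := by exact_mod_cast hp.two_le
  set f := muz {p} z * toC (ae α {p}) with hf
  have e0 : NN f = ∑' a : ℕ, ENNReal.ofReal (‖f (p ^ a)‖ ^ 2 / ((p ^ a : ℕ) : ℝ)) := by
    unfold NN
    refine ((Nat.pow_right_injective hp.two_le).tsum_eq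
      (f := fun n : ℕ => ENNReal.ofReal (‖f n‖ ^ 2 / (n : ℝ))) ?_).symm
    intro n hn
    rw [Function.mem_support] at hn
    have hfn : f n ≠ 0 := by
      intro h
      apply hn
      rw [h]
      simp
    have hn0 : n ≠ 0 := by
      rintro rfl
      exact hfn f.map_zero
    obtain ⟨a, ha⟩ := eq_pow hn0 (supp_muz_ae _ _ _ _ hfn)
    exact ⟨a, ha.symm⟩
  rw [e0, tsum_eq_zero_add' ENNReal.summable, tsum_eq_zero_add' ENNReal.summable]
  have t0 : ENNReal.ofReal (‖f (p ^ 0)‖ ^ 2 / ((p ^ 0 : ℕ) : ℝ)) = ENNReal.ofReal 1 := by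
    rw [hf, val_zero hp]
    simp
  have t1 : ENNReal.ofReal (‖f (p ^ (0 + 1))‖ ^ 2 / ((p ^ (0 + 1) : ℕ) : ℝ)) =
      ENNReal.ofReal (‖(α : ℂ) - (p : ℂ) ^ (-z)‖ ^ 2 / (p : ℝ)) := by
    rw [hf, val_succ hp]
    simp
  have t2 : ∑' b : ℕ, ENNReal.ofReal (‖f (p ^ (b + 1 + 1))‖ ^ 2 / ((p ^ (b + 1 + 1) : ℕ) : ℝ)) ≤
      ENNReal.ofReal (9 / 2 / (p : ℝ) ^ 2) := by
    have hsum : HasSum (fun b : ℕ => 9 / 4 / (p : ℝ) ^ 2 * (1 / 2 : ℝ) ^ b)
        (9 / 4 / (p : ℝ) ^ 2 * 2) := by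
      have := (hasSum_geometric_two).mul_left (9 / 4 / (p : ℝ) ^ 2)
      simpa using this
    rw [show (9 / 2 / (p : ℝ) ^ 2) = 9 / 4 / (p : ℝ) ^ 2 * 2 by ring, ← hsum.tsum_eq,
      ENNReal.ofReal_tsum_of_nonneg (fun b => by positivity) hsum.summable]
    refine ENNReal.tsum_le_tsum fun b => ENNReal.ofReal_le_ofReal ?_
    have e1 : ‖f (p ^ (b + 1 + 1))‖ ^ 2 ≤ 9 / 4 := by
      have e2 := val_ge hp h0 h1 hz b
      have e3 := norm_nonneg (f (p ^ (b + 1 + 1)))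
      have e4 : ‖f (p ^ (b + 1 + 1))‖ ≤ 3 / 2 := e2
      nlinarith
    have e5 : ((p ^ (b + 1 + 1) : ℕ) : ℝ) = (p : ℝ) ^ 2 * (p : ℝ) ^ b := by
      push_cast
      ring
    rw [e5, one_div, inv_pow, ← div_eq_mul_inv, div_div]
    apply div_le_div₀ (by norm_num) e1 (by positivity)
    apply mul_le_mul_of_nonneg_left _ (by positivity)
    exact pow_le_pow_left₀ (by norm_num) hp2 b
  rw [t0, t1]
  have hx : 0 ≤ ‖(α : ℂ) - (p : ℂ) ^ (-z)‖ ^ 2 / (p : ℝ) := by positivity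
  have hy : 0 ≤ 9 / 2 / (p : ℝ) ^ 2 := by positivity
  refine (add_le_add_right (add_le_add_right t2 _) _).trans ?_
  rw [← ENNReal.ofReal_add hx hy, ← ENNReal.ofReal_add zero_le_one (by positivity)]
  apply ENNReal.ofReal_le_ofReal
  have := Real.add_one_le_exp (‖(α : ℂ) - (p : ℂ) ^ (-z)‖ ^ 2 / (p : ℝ) + 9 / 2 / (p : ℝ) ^ 2)
  linarith

end Pool.Agent.Lib.MP_6bc78b_nt.MS.QZ.H17
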